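import Mathlib
import Pool.Agent.Helper56.SKF.Defs2

/-!
# SKF-M: representations of the universal algebra and of the superalgebra
-/

namespace Pool.Agent.Helper56.SKF

open Module Pool.Agent.Helper56.SKW Pool.Agent.Helper56.SKW.PBW Pool.Agent.Helper56.SKU
  Pool.Agent.Helper56.SKR

universe u v w

section conv

variable {k : Type u} {L₀ L₁ : Type*} [Field k] [AddCommGroup L₀] [Module k L₀] [AddCommGroup L₁]
  [Module k L₁] {m n : Type} [Fintype m] [Fintype n] [DecidableEq m] [DecidableEq n]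
  {g : LieSuper k L₀ L₁} {b₀ : Basis m k L₀} {b₁ : Basis n k L₁} {p : ℕ} {P : m → L₀}
  {F : Type u} [Field F] [Algebra k F] {V : Type u} [AddCommGroup V] [Module F V] [Module k V]
  [IsScalarTower k F V]

omit [DecidableEq m] [DecidableEq n] in
/-- The two notions of irreducibility agree. -/
theorem conv_irr_iff (ζ : m → F) (M : GRep g (Module.End F V))
    (ρ : EU (PG g b₀ b₁ p P) →+* Module.End F V)
    (hρ : ∀ (r : MvPolynomial m k) a, ρ (r • a) = MvPolynomial.aeval ζ r • ρ a)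
    (hσ : ρ (gE _ (Sum.inl ())) = M.σ) (h0 : ∀ i, ρ (gE _ (Sum.inr (Sum.inl i))) = M.ρ₀ (b₀ i))
    (h1 : ∀ j, ρ (gE _ (Sum.inr (Sum.inr j))) = M.ρ₁ (b₁ j)) : M.Irr ↔ Irr ρ := by
  constructor
  · rintro ⟨hnt, hM⟩
    refine ⟨hnt, fun W hW => hM W ?_ ?_ ?_⟩
    · intro v hv
      rw [← hσ]
      exact hW _ v hv
    · intro x v hv
      rw [← b₀.sum_repr x, map_sum, LinearMap.sum_apply]
      refine W.sum_mem fun i _ => ?_
      rw [map_smul, LinearMap.smul_apply, ← h0, ← algebraMap_smul F]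
      exact W.smul_mem _ (hW _ v hv)
    · intro x v hv
      rw [← b₁.sum_repr x, map_sum, LinearMap.sum_apply]
      refine W.sum_mem fun i _ => ?_
      rw [map_smul, LinearMap.smul_apply, ← h1, ← algebraMap_smul F]
      exact W.smul_mem _ (hW _ v hv)
  · rintro ⟨hnt, hM⟩
    refine ⟨hnt, fun W hs h0' h1' => hM W ?_⟩
    refine inv_of_letters ρ ((MvPolynomial.aeval ζ : MvPolynomial m k →ₐ[k] F) :
      MvPolynomial m k →+* F) (fun r a => hρ r a) W ?_
    rintro (⟨⟩ | (x | x))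
    · rw [hσ]
      exact hs
    · rw [h0]
      exact h0' _
    · rw [h1]
      exact h1' _

theorem rep_of_grep (h2 : (2 : k) ≠ 0) (ζ : m → F) (M : GRep g (Module.End F V))
    (hM : M.Chr b₀ p P ζ) :
    ∃ ρ : EU (PG g b₀ b₁ p P) →+* Module.End F V,
      (∀ (r : MvPolynomial m k) a, ρ (r • a) = MvPolynomial.aeval ζ r • ρ a) ∧
      ρ (gE _ (Sum.inl ())) = M.σ ∧ (∀ i, ρ (gE _ (Sum.inr (Sum.inl i))) = M.ρ₀ (b₀ i)) ∧
      (∀ j, ρ (gE _ (Sum.inr (Sum.inr j))) = M.ρ₁ (b₁ j)) ∧ (M.Irr ↔ Irr ρ) := by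
  let G : Unit ⊕ (m ⊕ n) → Module.End F V :=
    Sum.elim (fun _ => M.σ) (Sum.elim (fun i => M.ρ₀ (b₀ i)) (fun j => M.ρ₁ (b₁ j)))
  have hGσ : G (Sum.inl ()) = M.σ := rfl
  have hG0 : ∀ i, G (Sum.inr (Sum.inl i)) = M.ρ₀ (b₀ i) := fun _ => rfl
  have hG1 : ∀ i, G (Sum.inr (Sum.inr i)) = M.ρ₁ (b₁ i) := fun _ => rfl
  have hs0 : ∀ a : L₀, ∑ z, algebraMap k F (b₀.repr a z) • M.ρ₀ (b₀ z) = M.ρ₀ a := by
    intro a
    conv_rhs => rw [← b₀.sum_repr a]
    rw [map_sum]
    refine Finset.sum_congr rfl fun z _ => ?_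
    rw [map_smul, algebraMap_smul]
  have hs1 : ∀ a : L₁, ∑ z, algebraMap k F (b₁.repr a z) • M.ρ₁ (b₁ z) = M.ρ₁ a := by
    intro a
    conv_rhs => rw [← b₁.sum_repr a]
    rw [map_sum]
    refine Finset.sum_congr rfl fun z _ => ?_
    rw [map_smul, algebraMap_smul]
  have hs : ∀ a : L₀ × L₁, ∑ z, algebraMap k F ((b₀.prod b₁).repr a z) • G (Sum.inr z) =
      M.ρ₀ a.1 + M.ρ₁ a.2 := by
    intro a
    rw [Fintype.sum_sum_type]
    simp only [Basis.prod_repr_inl, Basis.prod_repr_inr, hG0, hG1, hs0, hs1]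
  have hrep : RepRel g b₀ b₁ p P ζ G := by
    constructor
    · exact M.ss
    · exact fun i => M.s0 _
    · exact fun i => M.s1 _
    · intro x y
      rw [hs, sbr_apply]
      rcases x with x | x <;> rcases y with y | y
      · have e : eps F (parZ m n) (Sum.inl x) (Sum.inl y) = 1 := by simp [eps, parZ]
        rw [e, hG0, hG0]
        simp only [Basis.prod_apply, Sum.elim_inl, Function.comp_apply, LinearMap.inl_apply,
          map_zero, add_zero, sub_zero, one_smul, M.m00]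
        abel
      · have e : eps F (parZ m n) (Sum.inl x) (Sum.inr y) = 1 := by simp [eps, parZ]
        rw [e, hG0, hG1]
        simp only [Basis.prod_apply, Sum.elim_inl, Sum.elim_inr, Function.comp_apply,
          LinearMap.inl_apply, LinearMap.inr_apply,
          map_zero, add_zero, zero_add, sub_zero, one_smul, M.m01, LinearMap.zero_apply]
        abel
      · have e : eps F (parZ m n) (Sum.inr x) (Sum.inl y) = 1 := by simp [eps, parZ]
        rw [e, hG0, hG1]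
        simp only [Basis.prod_apply, Sum.elim_inl, Sum.elim_inr, Function.comp_apply,
          LinearMap.inl_apply, LinearMap.inr_apply,
          map_zero, add_zero, zero_add, zero_sub, one_smul, map_neg, M.m01, LinearMap.zero_apply]
        abel
      · have e : eps F (parZ m n) (Sum.inr x) (Sum.inr y) = -1 := by simp [eps, parZ]
        rw [e, hG1, hG1]
        simp only [Basis.prod_apply, Sum.elim_inr, Function.comp_apply,
          LinearMap.inr_apply,
          map_zero, add_zero, zero_add, sub_zero, neg_smul, one_smul, M.m11, LinearMap.zero_apply]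
        abel
    · intro i
      simp only [hG0, hs0]
      rw [← hM i]
      abel
  have hrel := isRel_of_repRel h2 hrep
  refine ⟨liftE hrel, fun r a => liftE_smul hrel r a, liftE_gE hrel _, fun i => liftE_gE hrel _,
    fun j => liftE_gE hrel _, ?_⟩
  exact conv_irr_iff ζ M (liftE hrel) (fun r a => liftE_smul hrel r a) (liftE_gE hrel _)
    (fun i => liftE_gE hrel _) (fun j => liftE_gE hrel _)

theorem grep_of_rep (ζ : m → F) (ρ : EU (PG g b₀ b₁ p P) →+* Module.End F V)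
    (hρ : ∀ (r : MvPolynomial m k) a, ρ (r • a) = MvPolynomial.aeval ζ r • ρ a) :
    ∃ M : GRep g (Module.End F V), M.Chr b₀ p P ζ ∧
      ρ (gE _ (Sum.inl ())) = M.σ ∧ (∀ i, ρ (gE _ (Sum.inr (Sum.inl i))) = M.ρ₀ (b₀ i)) ∧
      (∀ j, ρ (gE _ (Sum.inr (Sum.inr j))) = M.ρ₁ (b₁ j)) ∧ (M.Irr ↔ Irr ρ) := by
  have hρC : ∀ (c : k) a, ρ ((MvPolynomial.C c : MvPolynomial m k) • a) = c • ρ a := by
    intro c a
    rw [hρ, MvPolynomial.aeval_C, algebraMap_smul]
  obtain ⟨ρ₀, ρ₁, σ, h0, h1, hσ, hss, hs0, hs1, m00, m01, m11⟩ := exists_act ρ hρC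
  let M : GRep g (Module.End F V) := ⟨σ, ρ₀, ρ₁, hss, hs0, hs1, m00, m01, m11⟩
  have hchr : M.Chr b₀ p P ζ := by
    intro i
    show ρ₀ (b₀ i) ^ p - ρ₀ (P i) = ζ i • 1
    have h3 := congrArg ρ ((gE_rel (PG g b₀ b₁ p P)).pow (Sum.inr (Sum.inl i)))
    rw [Fintype.sum_sum_type, Fintype.sum_sum_type] at h3
    have e4 : (PG g b₀ b₁ p P).n (Sum.inr (Sum.inl i)) = p := rfl
    have e3 : (PG g b₀ b₁ p P).D0 (Sum.inr (Sum.inl i)) = MvPolynomial.X i := rfl
    have e5 : ∀ z, (PG g b₀ b₁ p P).Dc (Sum.inr (Sum.inl i)) (Sum.inl z) = 0 := fun z => rfl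
    have e6 : ∀ z, (PG g b₀ b₁ p P).Dc (Sum.inr (Sum.inl i)) (Sum.inr (Sum.inr z)) = 0 :=
      fun z => rfl
    have e7 : ∀ z, (PG g b₀ b₁ p P).Dc (Sum.inr (Sum.inl i)) (Sum.inr (Sum.inl z)) =
      MvPolynomial.C (b₀.repr (P i) z) := fun z => rfl
    simp only [e3, e4, e5, e6, e7, map_zero, zero_smul, Finset.sum_const_zero, zero_add, add_zero,
      RingHom.id_apply, map_add, map_pow, map_sum, hρC, ← h0] at h3
    rw [hρ, MvPolynomial.aeval_X, map_one] at h3
    have h4 : ∑ z, b₀.repr (P i) z • ρ₀ (b₀ z) = ρ₀ (P i) := by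
      conv_rhs => rw [← b₀.sum_repr (P i)]
      rw [map_sum]
      exact Finset.sum_congr rfl fun z _ => (map_smul _ _ _).symm
    rw [h3, h4]
    abel
  refine ⟨M, hchr, hσ.symm, fun i => (h0 i).symm, fun j => (h1 j).symm, ?_⟩
  exact conv_irr_iff ζ M ρ hρ hσ.symm (fun i => (h0 i).symm) (fun j => (h1 j).symm)

end conv

end Pool.Agent.Helper56.SKF
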